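import Pool.Agent.H82.RD.Lvl

/-!
MP_ba3460_lc, linear exponent in the dense regime (/team-store/H80_RLD.md, section 3 (7)): the cost of
the weight (helper80).

The weight of a profile is `2 ^ (-L-3) ∏ (load + 1) / (2 L)` over the active rows. If the numbers of
rows of the levels `i' ≤ i` are at most `X 2 ^ (i' - i)` and at most `X'` rows have a higher level,
then `1 / weight` to the power `lam ≤ D ^ i` is at most `2 ^ (C L (X + X'))`.
-/

set_option autoImplicit false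
set_option linter.unusedSectionVars false

open Finset

namespace Pool.Agent.H80.RO

open Pool.Agent.H82.RD (zz lv ld Tt lv_iff Tt_zero Tt_sub Tt_succ Lvl_mem_G Lvl_mem_Tt Lvl_zz_succ
  Lvl_zz_zero Lvl_anti)

variable {L g : ℕ}

/-- `(2 L) ^ m ≤ 8 ^ L m ^ m`. -/
theorem pow_le_eight (L m : ℕ) : (2 * (L : ℝ)) ^ m ≤ 8 ^ L * (m : ℝ) ^ m := by
  have h1 : (2 * (L : ℝ)) ^ m / (m.factorial : ℝ) ≤ Real.exp (2 * L) :=
    Real.pow_div_factorial_le_exp (2 * (L : ℝ)) (by positivity) m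
  have h2 : Real.exp (2 * L) ≤ 8 ^ L := by
    have h3 : Real.exp 2 ≤ 8 := by
      have h4 : Real.exp 2 = Real.exp 1 * Real.exp 1 := by rw [← Real.exp_add]; norm_num
      have h5 := Real.exp_one_lt_d9
      have h6 := Real.exp_pos 1
      rw [h4]
      nlinarith
    calc Real.exp (2 * L) = Real.exp 2 ^ L := by rw [← Real.exp_nat_mul]; ring_nf
      _ ≤ 8 ^ L := pow_le_pow_left₀ (Real.exp_pos 2).le h3 L
  have h3 : (m.factorial : ℝ) ≤ (m : ℝ) ^ m := by
    exact_mod_cast Nat.factorial_le_pow m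
  have h4 : (0 : ℝ) < m.factorial := by exact_mod_cast m.factorial_pos
  calc (2 * (L : ℝ)) ^ m = (2 * (L : ℝ)) ^ m / (m.factorial : ℝ) * m.factorial := by
        field_simp
    _ ≤ 8 ^ L * (m : ℝ) ^ m := mul_le_mul (h1.trans h2) h3 h4.le (by positivity)

/-- Sums over the rows of level `< e`, level by level. -/
theorem sum_levels {D : ℕ} {T : Finset (Fin L)} {s : Fin L → Fin g} (F : Fin L → ℕ) (e : ℕ) :
    ∑ l ∈ T \ Tt D T s e, F l =
      ∑ e' ∈ range e, ∑ l ∈ Tt D T s e' \ Tt D T s (e' + 1), F l := by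
  induction e with
  | zero => rw [Tt_zero, sdiff_self]; simp
  | succ e ih =>
    rw [sum_range_succ, ← ih, ← sum_union]
    · congr 1
      ext l
      have h1 := Tt_succ (D := D) (T1 := T) (s := s) e
      have h2 := Tt_sub (D := D) (T1 := T) (s := s) e
      simp only [mem_sdiff, mem_union]
      constructor
      · rintro ⟨h3, h4⟩
        by_cases h5 : l ∈ Tt D T s e
        · exact Or.inr ⟨h5, h4⟩
        · exact Or.inl ⟨h3, h5⟩
      · rintro (⟨h3, h4⟩ | ⟨h3, h4⟩)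
        · exact ⟨h3, fun h5 => h4 (h1 h5)⟩
        · exact ⟨h2 h3, h4⟩
    · rw [disjoint_left]
      intro l hl hl'
      exact (mem_sdiff.1 hl).2 (mem_sdiff.1 hl').1

theorem geo_one (n : ℕ) : ∑ r ∈ range n, (1 : ℝ) / 2 ^ r = 2 - 2 / 2 ^ n := by
  induction n with
  | zero => simp
  | succ n ih =>
    rw [sum_range_succ, ih, pow_succ]
    field_simp
    ring

theorem geo_two (n : ℕ) : ∑ r ∈ range n, ((r : ℝ) + 1) / 2 ^ r = 4 - (2 * n + 4) / 2 ^ n := by
  induction n with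
  | zero => simp
  | succ n ih =>
    rw [sum_range_succ, ih, pow_succ]
    push_cast
    field_simp
    ring

/-- Weighted sums of a sequence that decreases geometrically. -/
theorem geo_sum {b : ℕ → ℕ} {n X : ℕ} (h : ∀ r < n, b r * 2 ^ r ≤ X) :
    ∑ r ∈ range n, b r ≤ 2 * X ∧ ∑ r ∈ range n, (r + 1) * b r ≤ 4 * X := by
  have hb : ∀ r < n, (b r : ℝ) ≤ X * (1 / 2 ^ r) := by
    intro r hr
    have h1 : ((b r * 2 ^ r : ℕ) : ℝ) ≤ X := by exact_mod_cast h r hr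
    push_cast at h1
    rw [mul_one_div, le_div_iff₀ (by positivity)]
    exact h1
  have hX : (0 : ℝ) ≤ X := Nat.cast_nonneg X
  constructor
  · have h1 : ((∑ r ∈ range n, b r : ℕ) : ℝ) ≤ 2 * X := by
      push_cast
      calc ∑ r ∈ range n, (b r : ℝ) ≤ ∑ r ∈ range n, (X : ℝ) * (1 / 2 ^ r) :=
            sum_le_sum fun r hr => hb r (mem_range.1 hr)
        _ = X * (2 - 2 / 2 ^ n) := by rw [← mul_sum, geo_one]
        _ ≤ X * 2 := by
            refine mul_le_mul_of_nonneg_left ?_ hX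
            have : (0 : ℝ) ≤ 2 / 2 ^ n := by positivity
            linarith
        _ = 2 * X := by ring
    exact_mod_cast h1
  · have h1 : ((∑ r ∈ range n, (r + 1) * b r : ℕ) : ℝ) ≤ 4 * X := by
      push_cast
      calc ∑ r ∈ range n, ((r : ℝ) + 1) * (b r : ℝ)
          ≤ ∑ r ∈ range n, (X : ℝ) * (((r : ℝ) + 1) / 2 ^ r) := by
            refine sum_le_sum fun r hr => ?_
            have h2 := mul_le_mul_of_nonneg_left (hb r (mem_range.1 hr))
              (show (0 : ℝ) ≤ (r : ℝ) + 1 by positivity)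
            calc ((r : ℝ) + 1) * (b r : ℝ) ≤ ((r : ℝ) + 1) * (X * (1 / 2 ^ r)) := h2
              _ = X * (((r : ℝ) + 1) / 2 ^ r) := by ring
        _ = X * (4 - (2 * n + 4) / 2 ^ n) := by rw [← mul_sum, geo_two]
        _ ≤ X * 4 := by
            refine mul_le_mul_of_nonneg_left ?_ hX
            have : (0 : ℝ) ≤ (2 * n + 4) / 2 ^ n := by positivity
            linarith
        _ = 4 * X := by ring
    exact_mod_cast h1

/-- The levels up to `i`: number of rows and sum of `i + 1 - level`. -/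
theorem level_sums {D i X : ℕ} {T : Finset (Fin L)} {s : Fin L → Fin g}
    (hX : ∀ i' ≤ i, (Tt D T s i' \ Tt D T s (i' + 1)).card * 2 ^ (i - i') ≤ X) :
    (T \ Tt D T s (i + 1)).card ≤ 2 * X ∧
      ∑ l ∈ T \ Tt D T s (i + 1), (i + 1 - lv D (ld T s l (s l))) ≤ 4 * X := by
  set b : ℕ → ℕ := fun r => (Tt D T s (i - r) \ Tt D T s (i - r + 1)).card with hb
  have h1 : ∀ r < i + 1, b r * 2 ^ r ≤ X := by
    intro r hr
    have h2 := hX (i - r) (Nat.sub_le _ _)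
    rwa [show i - (i - r) = r by omega] at h2
  obtain ⟨h2, h3⟩ := geo_sum h1
  constructor
  · refine le_trans (le_of_eq ?_) h2
    rw [card_eq_sum_ones, sum_levels, ← sum_range_reflect]
    refine sum_congr rfl fun r hr => ?_
    rw [mem_range] at hr
    rw [← card_eq_sum_ones, hb]
    simp only
    rw [show i + 1 - 1 - r = i - r by omega]
  · refine le_trans (le_of_eq ?_) h3
    rw [sum_levels, ← sum_range_reflect]
    refine sum_congr rfl fun r hr => ?_
    rw [mem_range] at hr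
    have h4 : ∀ l ∈ Tt D T s (i + 1 - 1 - r) \ Tt D T s (i + 1 - 1 - r + 1),
        i + 1 - lv D (ld T s l (s l)) = r + 1 := by
      intro l hl
      rw [show i + 1 - 1 - r = i - r by omega] at hl
      unfold Tt at hl
      rw [mem_sdiff, mem_filter, mem_filter] at hl
      have h5 := hl.1.2
      have h6 : ¬ (i - r + 1 ≤ lv D (ld T s l (s l))) := fun h => hl.2 ⟨hl.1.1, h⟩
      omega
    rw [sum_congr rfl h4, sum_const, smul_eq_mul, hb]
    simp only
    rw [show i + 1 - 1 - r = i - r by omega, mul_comm]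

/-- The load of a row of level `i'` and the `i`-th cap. -/
theorem load_pow {D i lam : ℕ} (hD : 1 ≤ D) (hlam : lam ≤ D ^ i) (n : ℕ) :
    lam ≤ (n + 1) * D ^ (i + 1 - lv D n) := by
  have h0 : zz D (lv D n) ≤ n := (lv_iff hD _ _).1 le_rfl
  rcases Nat.eq_zero_or_pos (lv D n) with h | h
  · rw [h, Nat.sub_zero]
    calc lam ≤ D ^ i := hlam
      _ ≤ D ^ (i + 1) := Nat.pow_le_pow_right hD (by omega)
      _ = 1 * D ^ (i + 1) := (one_mul _).symm
      _ ≤ (n + 1) * D ^ (i + 1) := Nat.mul_le_mul_right _ (by omega)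
  · obtain ⟨j, hj⟩ := Nat.exists_eq_succ_of_ne_zero (Nat.pos_iff_ne_zero.1 h)
    rw [hj] at h0 ⊢
    rw [Nat.succ_eq_add_one, Lvl_zz_succ] at h0
    have h1 : D ^ j ≤ n + 1 := by omega
    calc lam ≤ D ^ i := hlam
      _ ≤ D ^ (j + (i + 1 - (j + 1))) := Nat.pow_le_pow_right hD (by omega)
      _ = D ^ j * D ^ (i + 1 - (j + 1)) := pow_add _ _ _
      _ ≤ (n + 1) * D ^ (i + 1 - Nat.succ j) := Nat.mul_le_mul_right _ h1

/-- `(t / m) ^ m ≤ 4 ^ t`, in the form `t ^ m ≤ 4 ^ t m ^ m`. -/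
theorem pow_le_four (t m : ℕ) : (t : ℝ) ^ m ≤ 4 ^ t * (m : ℝ) ^ m := by
  have h1 : (t : ℝ) ^ m / (m.factorial : ℝ) ≤ Real.exp t :=
    Real.pow_div_factorial_le_exp (t : ℝ) (by positivity) m
  have h2 : Real.exp t ≤ 4 ^ t := by
    have h5 := Real.exp_one_lt_d9
    calc Real.exp t = Real.exp 1 ^ t := by rw [← Real.exp_nat_mul]; ring_nf
      _ ≤ 4 ^ t := pow_le_pow_left₀ (Real.exp_pos 1).le (by linarith) t
  have h3 : (m.factorial : ℝ) ≤ (m : ℝ) ^ m := by
    exact_mod_cast Nat.factorial_le_pow m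
  have h4 : (0 : ℝ) < m.factorial := by exact_mod_cast m.factorial_pos
  calc (t : ℝ) ^ m = (t : ℝ) ^ m / (m.factorial : ℝ) * m.factorial := by
        field_simp
    _ ≤ 4 ^ t * (m : ℝ) ^ m := mul_le_mul (h1.trans h2) h3 h4.le (by positivity)

/-- **Cost of the weight**, general form: `B` bits for `(2 L / lam) ^ lam`. -/
theorem cod0 {D d i lam X X' B t : ℕ} (hD : 1 ≤ D) (hd : D ≤ 2 ^ d) {T : Finset (Fin L)}
    {s : Fin L → Fin g} (h1 : 1 ≤ lam) (hlam : lam ≤ D ^ i) (ht : lam ≤ t)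
    (hB : (2 * (L : ℝ) / lam) ^ lam ≤ 2 ^ B)
    (hX : ∀ i' ≤ i, (Tt D T s i' \ Tt D T s (i' + 1)).card * 2 ^ (i - i') ≤ X)
    (hX' : (Tt D T s (i + 1)).card ≤ X') :
    (∏ l ∈ T, (2 * (L : ℝ) / (ld T s l (s l) + 1))) ^ lam ≤
      2 ^ (B * (2 * X + X') + 4 * d * t * X) := by
  obtain ⟨h2, h3⟩ := level_sums hX
  have hlam0 : (0 : ℝ) < lam := by exact_mod_cast h1
  -- one row
  have h4 : ∀ l ∈ T, (2 * (L : ℝ) / (ld T s l (s l) + 1)) ^ lam ≤
      2 ^ (B + d * t * (i + 1 - lv D (ld T s l (s l)))) := by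
    intro l _
    set n := ld T s l (s l) with hn
    have h5 : (lam : ℝ) ≤ ((n : ℝ) + 1) * (D : ℝ) ^ (i + 1 - lv D n) := by
      exact_mod_cast load_pow hD hlam n
    have h6 : 2 * (L : ℝ) / (n + 1) ≤ 2 * (L : ℝ) / lam * (D : ℝ) ^ (i + 1 - lv D n) := by
      rw [div_mul_eq_mul_div, div_le_div_iff₀ (by positivity) hlam0]
      calc 2 * (L : ℝ) * lam ≤ 2 * (L : ℝ) * (((n : ℝ) + 1) * (D : ℝ) ^ (i + 1 - lv D n)) :=
            mul_le_mul_of_nonneg_left h5 (by positivity)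
        _ = 2 * (L : ℝ) * (D : ℝ) ^ (i + 1 - lv D n) * ((n : ℝ) + 1) := by ring
    have h8 : ((D : ℝ) ^ (i + 1 - lv D n)) ^ lam ≤ 2 ^ (d * t * (i + 1 - lv D n)) := by
      have h9 : (D : ℝ) ≤ 2 ^ d := by exact_mod_cast hd
      calc ((D : ℝ) ^ (i + 1 - lv D n)) ^ lam ≤ (((2 : ℝ) ^ d) ^ (i + 1 - lv D n)) ^ lam := by
            gcongr
        _ = 2 ^ (d * lam * (i + 1 - lv D n)) := by
            rw [← pow_mul, ← pow_mul]; ring_nf
        _ ≤ 2 ^ (d * t * (i + 1 - lv D n)) := by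
            refine pow_le_pow_right₀ (by norm_num) ?_
            gcongr
    calc (2 * (L : ℝ) / (n + 1)) ^ lam
        ≤ (2 * (L : ℝ) / lam * (D : ℝ) ^ (i + 1 - lv D n)) ^ lam :=
          pow_le_pow_left₀ (by positivity) h6 _
      _ = (2 * (L : ℝ) / lam) ^ lam * ((D : ℝ) ^ (i + 1 - lv D n)) ^ lam := mul_pow _ _ _
      _ ≤ 2 ^ B * 2 ^ (d * t * (i + 1 - lv D n)) :=
          mul_le_mul hB h8 (by positivity) (by positivity)
      _ = 2 ^ (B + d * t * (i + 1 - lv D n)) := (pow_add _ _ _).symm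
  -- the sum of the exponents
  have h5 : ∑ l ∈ T, (B + d * t * (i + 1 - lv D (ld T s l (s l)))) ≤
      B * (2 * X + X') + 4 * d * t * X := by
    rw [sum_add_distrib, sum_const, smul_eq_mul, ← mul_sum]
    have h6 : T.card ≤ 2 * X + X' := by
      have h7 := card_sdiff_add_card_eq_card (Tt_sub (D := D) (T1 := T) (s := s) (i + 1))
      omega
    have h7 : ∑ l ∈ T, (i + 1 - lv D (ld T s l (s l))) =
        ∑ l ∈ T \ Tt D T s (i + 1), (i + 1 - lv D (ld T s l (s l))) := by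
      symm
      refine sum_subset sdiff_subset fun l hl hl' => ?_
      have h8 : l ∈ Tt D T s (i + 1) := by
        by_contra hc
        exact hl' (mem_sdiff.2 ⟨hl, hc⟩)
      unfold Tt at h8
      rw [mem_filter] at h8
      omega
    rw [h7]
    calc T.card * B + d * t * ∑ l ∈ T \ Tt D T s (i + 1), (i + 1 - lv D (ld T s l (s l)))
        ≤ (2 * X + X') * B + d * t * (4 * X) := by gcongr
      _ = B * (2 * X + X') + 4 * d * t * X := by ring
  calc (∏ l ∈ T, (2 * (L : ℝ) / (ld T s l (s l) + 1))) ^ lam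
      = ∏ l ∈ T, (2 * (L : ℝ) / (ld T s l (s l) + 1)) ^ lam := (prod_pow _ _ _).symm
    _ ≤ ∏ l ∈ T, (2 : ℝ) ^ (B + d * t * (i + 1 - lv D (ld T s l (s l)))) :=
        prod_le_prod (fun l _ => by positivity) h4
    _ = 2 ^ (∑ l ∈ T, (B + d * t * (i + 1 - lv D (ld T s l (s l))))) := by
        rw [prod_pow_eq_pow_sum]
    _ ≤ 2 ^ (B * (2 * X + X') + 4 * d * t * X) := pow_le_pow_right₀ (by norm_num) h5

/-- **Cost of the weight.** -/
theorem cod {D d i lam X X' : ℕ} (hD : 1 ≤ D) (hd : D ≤ 2 ^ d) {T : Finset (Fin L)}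
    {s : Fin L → Fin g} (h1 : 1 ≤ lam) (hlam : lam ≤ D ^ i) (hL : lam ≤ L)
    (hX : ∀ i' ≤ i, (Tt D T s i' \ Tt D T s (i' + 1)).card * 2 ^ (i - i') ≤ X)
    (hX' : (Tt D T s (i + 1)).card ≤ X') :
    (∏ l ∈ T, (2 * (L : ℝ) / (ld T s l (s l) + 1))) ^ lam ≤
      2 ^ (3 * L * (2 * X + X') + 4 * d * L * X) := by
  have hlam0 : (0 : ℝ) < lam := by exact_mod_cast h1
  refine cod0 hD hd h1 hlam hL ?_ hX hX'
  rw [div_pow, div_le_iff₀ (by positivity), pow_mul]
  norm_num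
  exact pow_le_eight L lam

/-- **Cost of the weight**, if `lam ≤ t0` and `2 L ≤ 2 ^ v t0`: no factor `L / t0`. -/
theorem cod' {D d i lam X X' t0 v : ℕ} (hD : 1 ≤ D) (hd : D ≤ 2 ^ d) {T : Finset (Fin L)}
    {s : Fin L → Fin g} (h1 : 1 ≤ lam) (hlam : lam ≤ D ^ i) (ht : lam ≤ t0)
    (hv : 2 * L ≤ 2 ^ v * t0)
    (hX : ∀ i' ≤ i, (Tt D T s i' \ Tt D T s (i' + 1)).card * 2 ^ (i - i') ≤ X)
    (hX' : (Tt D T s (i + 1)).card ≤ X') :
    (∏ l ∈ T, (2 * (L : ℝ) / (ld T s l (s l) + 1))) ^ lam ≤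
      2 ^ ((v + 2) * t0 * (2 * X + X') + 4 * d * t0 * X) := by
  have hlam0 : (0 : ℝ) < lam := by exact_mod_cast h1
  refine cod0 hD hd h1 hlam ht ?_ hX hX'
  have h2 : 2 * (L : ℝ) ≤ 2 ^ v * t0 := by exact_mod_cast hv
  rw [div_pow, div_le_iff₀ (by positivity)]
  calc (2 * (L : ℝ)) ^ lam ≤ ((2 : ℝ) ^ v * t0) ^ lam := pow_le_pow_left₀ (by positivity) h2 _
    _ = ((2 : ℝ) ^ v) ^ lam * (t0 : ℝ) ^ lam := mul_pow _ _ _
    _ ≤ ((2 : ℝ) ^ v) ^ t0 * (4 ^ t0 * (lam : ℝ) ^ lam) := by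
        refine mul_le_mul ?_ (pow_le_four t0 lam) (by positivity) (by positivity)
        exact pow_le_pow_right₀ (one_le_pow₀ (by norm_num)) ht
    _ = 2 ^ ((v + 2) * t0) * (lam : ℝ) ^ lam := by
        have h3 : (4 : ℝ) ^ t0 = 2 ^ (2 * t0) := by rw [pow_mul]; norm_num
        rw [h3, ← pow_mul, ← mul_assoc, ← pow_add]
        ring_nf

end Pool.Agent.H80.RO
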