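import Pool.Agent.H80.RO.Wgt

/-!
MP_ba3460_lc, linear exponent in the dense regime (/team-store/H80_RLD.md, (F5), (F6) and the choice of
the stage in section 3): the dominant level `f`, the stage `i` and the number `lam` (helper80).
-/

set_option autoImplicit false
set_option linter.unusedSectionVars false

open Finset

namespace Pool.Agent.H80.RO

open Pool.Agent.H82.RD (zz lv ld af Tt Jt lv_iff Tt_zero Tt_sub Tt_succ Tt_end Lvl_mem_G
  Lvl_mem_Tt Lvl_mem_Jt Lvl_zz_succ Lvl_zz_zero Lvl_zz_mono Lvl_anti Lvl_card Lvl_image_ld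
  Lvl_ld_inj Lvl_ld_lt Jt_card sv_card)

variable {L g : ℕ} {D : ℕ} {T : Finset (Fin L)} {s : Fin L → Fin g}

/-- The number of rows of level exactly `i`. -/
def nl (D : ℕ) (T : Finset (Fin L)) (s : Fin L → Fin g) (i : ℕ) : ℕ :=
  (Tt D T s i \ Tt D T s (i + 1)).card

/-- The level `f` is dominant. -/
def Dom (D : ℕ) (T : Finset (Fin L)) (s : Fin L → Fin g) (f : ℕ) : Prop :=
  1 ≤ nl D T s f ∧ ∀ i, nl D T s i * 2 ^ f ≤ 2 ^ i * nl D T s f

theorem nl_le (i : ℕ) : nl D T s i ≤ T.card := card_le_card (sdiff_subset.trans (Tt_sub i))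

theorem nl_zero_of_le (hD : 1 ≤ D) {i : ℕ} (h : T.card ≤ i) : nl D T s i = 0 := by
  unfold nl
  rw [Tt_end hD i h, empty_sdiff, card_empty]

theorem sum_nl (e : ℕ) : ∑ i ∈ range e, nl D T s i = (T \ Tt D T s e).card := by
  rw [card_eq_sum_ones, sum_levels]
  refine sum_congr rfl fun i _ => ?_
  rw [← card_eq_sum_ones]
  rfl

/-- A dominant level exists. -/
theorem exists_dom (hD : 1 ≤ D) (hT : T.Nonempty) : ∃ f, Dom D T s f := by
  obtain ⟨f, -, hf⟩ := exists_max_image (range (T.card + 1))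
    (fun i => (nl D T s i : ℝ) / 2 ^ i) ⟨0, mem_range.2 (Nat.succ_pos _)⟩
  have h1 : ∀ i, (nl D T s i : ℝ) / 2 ^ i ≤ (nl D T s f : ℝ) / 2 ^ f := by
    intro i
    by_cases hi : i < T.card + 1
    · exact hf i (mem_range.2 hi)
    · rw [nl_zero_of_le hD (by omega), Nat.cast_zero, zero_div]
      positivity
  have h2 : ∀ i, nl D T s i * 2 ^ f ≤ 2 ^ i * nl D T s f := by
    intro i
    have h3 := h1 i
    rw [div_le_div_iff₀ (by positivity) (by positivity)] at h3
    have h4 : ((nl D T s i * 2 ^ f : ℕ) : ℝ) ≤ ((2 ^ i * nl D T s f : ℕ) : ℝ) := by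
      push_cast
      linarith
    exact_mod_cast h4
  refine ⟨f, ?_, h2⟩
  by_contra hc
  have h3 : nl D T s f = 0 := by omega
  have h4 : ∀ i, nl D T s i = 0 := by
    intro i
    have h5 := h2 i
    rw [h3, mul_zero] at h5
    have h6 : 0 < 2 ^ f := by positivity
    rcases Nat.eq_zero_or_pos (nl D T s i) with h | h
    · exact h
    · have := Nat.mul_pos h h6
      omega
  have h5 := sum_nl (D := D) (T := T) (s := s) T.card
  rw [sum_eq_zero fun i _ => h4 i, Tt_end hD _ le_rfl, sdiff_empty] at h5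
  have := hT.card_pos
  omega

/-- The rows of level at most `f + 2` are at most `8 a_f`. -/
theorem dom_card {f : ℕ} (hf : Dom D T s f) :
    (T \ Tt D T s (f + 3)).card ≤ 8 * nl D T s f := by
  rw [← sum_nl]
  have h1 : (∑ i ∈ range (f + 3), nl D T s i) * 2 ^ f ≤ 8 * nl D T s f * 2 ^ f := by
    rw [sum_mul]
    calc ∑ i ∈ range (f + 3), nl D T s i * 2 ^ f
        ≤ ∑ i ∈ range (f + 3), 2 ^ i * nl D T s f := sum_le_sum fun i _ => hf.2 i
      _ = (∑ i ∈ range (f + 3), 2 ^ i) * nl D T s f := by rw [sum_mul]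
      _ ≤ 2 ^ (f + 3) * nl D T s f := by
          refine Nat.mul_le_mul_right _ ?_
          rw [Nat.geomSum_eq le_rfl]
          simp
      _ = 8 * nl D T s f * 2 ^ f := by rw [pow_add]; ring
  exact Nat.le_of_mul_le_mul_right h1 (by positivity)

/-- The columns of final level at least `f + 3` are few. -/
theorem dom_Jt (hD : 1 ≤ D) {f : ℕ} (hf : Dom D T s f) :
    (Jt D T s (f + 3)).card * D ^ (f + 2) ≤ 4 * nl D T s f := by
  refine (Jt_card hD (f + 2)).trans ?_
  have h1 := hf.2 (f + 2)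
  have h2 : nl D T s (f + 2) * 2 ^ f ≤ 4 * nl D T s f * 2 ^ f := by
    calc nl D T s (f + 2) * 2 ^ f ≤ 2 ^ (f + 2) * nl D T s f := h1
      _ = 4 * nl D T s f * 2 ^ f := by rw [pow_add]; ring
  exact Nat.le_of_mul_le_mul_right h2 (by positivity)

/-- The dominant level is unchanged by the removal of the levels `≥ f + 3`. -/
theorem dom_rem (hD : 1 ≤ D) {f : ℕ} (hf : Dom D T s f) :
    Dom D (T \ Tt D T s (f + 3)) s f ∧
      nl D (T \ Tt D T s (f + 3)) s f = nl D T s f := by
  have h1 : ∀ i < f + 3, nl D (T \ Tt D T s (f + 3)) s i = nl D T s i := by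
    intro i hi
    unfold nl
    rw [lev_rem hD hi]
  have h2 : ∀ i, f + 3 ≤ i → nl D (T \ Tt D T s (f + 3)) s i = 0 := by
    intro i hi
    unfold nl
    rw [Tt_rem_empty hD hi, empty_sdiff, card_empty]
  have h3 := h1 f (by omega)
  refine ⟨⟨h3 ▸ hf.1, fun i => ?_⟩, h3⟩
  rw [h3]
  by_cases hi : i < f + 3
  · rw [h1 i hi]
    exact hf.2 i
  · rw [h2 i (by omega), zero_mul]
    exact Nat.zero_le _

/-- **The choice of the stage.** -/
theorem stage (hD : 1 ≤ D) {f t0 : ℕ} (hf : Dom D T s f) (ht0 : 1 ≤ t0) (htL : t0 ≤ L)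
    (hT : T.card ≤ 8 * nl D T s f) :
    ∃ i lam X X' : ℕ, i ≤ f ∧ lam = min (D ^ i) (min (nl D T s f) t0) ∧ 1 ≤ lam ∧ lam ≤ t0 ∧
      lam ≤ D ^ i ∧ min (nl D T s f) t0 ≤ nl D T s i ∧
      (Jt D T s i).card * lam ≤ D * t0 + g ∧
      (∀ i' ≤ i, (Tt D T s i' \ Tt D T s (i' + 1)).card * 2 ^ (i - i') ≤ X) ∧
      (Tt D T s (i + 1)).card ≤ X' ∧
      X * t0 ≤ L * min (nl D T s f) t0 ∧ X' * t0 ≤ 8 * L * min (nl D T s f) t0 := by
  have hTL : T.card ≤ L := by
    have := card_le_univ T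
    rwa [Fintype.card_fin] at this
  have hlam : ∀ i, 1 ≤ min (D ^ i) (min (nl D T s f) t0) := fun i =>
    le_min (Nat.one_le_pow _ _ hD) (le_min hf.1 ht0)
  have hlam' : ∀ i, min (D ^ i) (min (nl D T s f) t0) ≤ t0 := fun i =>
    (min_le_right _ _).trans (min_le_right _ _)
  -- the number of columns
  have hJ : ∀ i, (i = 0 ∨ (1 ≤ i ∧ nl D T s (i - 1) ≤ t0)) →
      (Jt D T s i).card * min (D ^ i) (min (nl D T s f) t0) ≤ D * t0 + g := by
    intro i hi
    rcases hi with hi | ⟨hi, hi'⟩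
    · rw [hi]
      have h1 : (Jt D T s 0).card ≤ g := by
        have := card_le_univ (Jt D T s 0)
        rwa [Fintype.card_fin] at this
      have h2 : min (D ^ 0) (min (nl D T s f) t0) ≤ 1 := by
        rw [pow_zero]; exact min_le_left _ _
      calc (Jt D T s 0).card * min (D ^ 0) (min (nl D T s f) t0) ≤ g * 1 :=
            Nat.mul_le_mul h1 h2
        _ ≤ D * t0 + g := by omega
    · obtain ⟨j, rfl⟩ := Nat.exists_eq_succ_of_ne_zero (Nat.pos_iff_ne_zero.1 hi)
      rw [Nat.succ_eq_add_one, Nat.add_sub_cancel] at hi'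
      have h1 := Jt_card (T1 := T) (s := s) hD j
      calc (Jt D T s (j + 1)).card * min (D ^ (j + 1)) (min (nl D T s f) t0)
          ≤ (Jt D T s (j + 1)).card * D ^ (j + 1) := Nat.mul_le_mul_left _ (min_le_left _ _)
        _ = D * ((Jt D T s (j + 1)).card * D ^ j) := by rw [pow_succ]; ring
        _ ≤ D * t0 := Nat.mul_le_mul_left _ (h1.trans hi')
        _ ≤ D * t0 + g := by omega
  -- the decrease of the levels
  have hdec : ∀ i ≤ f, ∀ i' ≤ i, nl D T s i' * 2 ^ (i - i') ≤ nl D T s f := by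
    intro i hi i' hi'
    have h1 := hf.2 i'
    have h2 : nl D T s i' * 2 ^ (i - i') * 2 ^ i' ≤ nl D T s f * 2 ^ i' := by
      calc nl D T s i' * 2 ^ (i - i') * 2 ^ i' = nl D T s i' * 2 ^ i := by
            rw [mul_assoc, ← pow_add, Nat.sub_add_cancel hi']
        _ ≤ nl D T s i' * 2 ^ f :=
            Nat.mul_le_mul_left _ (Nat.pow_le_pow_right (by norm_num) hi)
        _ ≤ 2 ^ i' * nl D T s f := h1
        _ = nl D T s f * 2 ^ i' := mul_comm _ _
    exact Nat.le_of_mul_le_mul_right h2 (by positivity)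
  by_cases hc : nl D T s f ≤ t0
  · -- first case: the stage is `f`
    have hmin : min (nl D T s f) t0 = nl D T s f := min_eq_left hc
    refine ⟨f, _, nl D T s f, 8 * nl D T s f, le_rfl, rfl, hlam f, hlam' f, min_le_left _ _,
      min_le_left _ _, hJ f ?_, hdec f le_rfl, (card_le_card (Tt_sub _)).trans hT, ?_, ?_⟩
    · rcases Nat.eq_zero_or_pos f with h | h
      · exact Or.inl h
      · refine Or.inr ⟨h, ?_⟩
        have h1 := hf.2 (f - 1)
        obtain ⟨j, rfl⟩ := Nat.exists_eq_succ_of_ne_zero (Nat.pos_iff_ne_zero.1 h)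
        rw [Nat.succ_eq_add_one, Nat.add_sub_cancel] at h1 ⊢
        rw [Nat.succ_eq_add_one] at hc
        have h2 : nl D T s j * 2 * 2 ^ j ≤ nl D T s (j + 1) * 2 ^ j := by
          calc nl D T s j * 2 * 2 ^ j = nl D T s j * 2 ^ (j + 1) := by rw [pow_succ]; ring
            _ ≤ 2 ^ j * nl D T s (j + 1) := h1
            _ = nl D T s (j + 1) * 2 ^ j := mul_comm _ _
        have h3 := Nat.le_of_mul_le_mul_right h2 (by positivity)
        omega
    · rw [hmin, mul_comm L]
      exact Nat.mul_le_mul_left _ htL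
    · rw [hmin]
      calc 8 * nl D T s f * t0 ≤ 8 * nl D T s f * L := Nat.mul_le_mul_left _ htL
        _ = 8 * L * nl D T s f := by ring
  · -- second case: the first level with at least `t0` rows
    rw [not_le] at hc
    have hmin : min (nl D T s f) t0 = t0 := min_eq_right hc.le
    have hex : ∃ i, t0 ≤ nl D T s i := ⟨f, hc.le⟩
    classical
    set i := Nat.find hex with hi
    have hi1 : t0 ≤ nl D T s i := Nat.find_spec hex
    have hi2 : i ≤ f := Nat.find_min' hex hc.le
    have hi3 : ∀ j < i, nl D T s j < t0 := fun j hj => not_le.1 (Nat.find_min hex hj)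
    refine ⟨i, _, L, L, hi2, rfl, hlam i, hlam' i, min_le_left _ _, ?_, hJ i ?_, ?_, ?_, ?_, ?_⟩
    · rw [hmin]; exact hi1
    · rcases Nat.eq_zero_or_pos i with h | h
      · exact Or.inl h
      · exact Or.inr ⟨h, (hi3 (i - 1) (by omega)).le⟩
    · intro i' hi'
      exact (hdec i hi2 i' hi').trans ((nl_le f).trans hTL)
    · exact (card_le_card (Tt_sub _)).trans hTL
    · rw [hmin]
    · rw [hmin]
      nlinarith [Nat.zero_le (L * t0)]

/-- **The averaged rows** `G`: at most `t0` rows of the level `i` whose servers are not in `A`. -/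
theorem pick (hD : 1 ≤ D) {i m0 : ℕ} (A : Finset (Fin g)) (hm : m0 ≤ nl D T s i)
    (hA : 2 * ((T.image s ∩ A).card * D ^ i) ≤ m0) (hm0 : 1 ≤ m0) :
    ∃ G : Finset (Fin L), G ⊆ Tt D T s i \ Tt D T s (i + 1) ∧ (∀ l ∈ G, s l ∉ A) ∧
      G.Nonempty ∧ G.card ≤ m0 ∧ m0 ≤ 2 * G.card ∧
      ∀ S' ⊆ G, S'.card ≤ min (D ^ i) m0 * (S'.image s).card := by
  classical
  set G0 := (Tt D T s i \ Tt D T s (i + 1)).filter (fun l => s l ∉ A) with hG0
  set B0 := (Tt D T s i \ Tt D T s (i + 1)).filter (fun l => s l ∈ A) with hB0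
  have h1 : B0.card ≤ (T.image s ∩ A).card * D ^ i := by
    refine (sv_card hD i B0 (filter_subset _ _)).trans (Nat.mul_le_mul_right _ (card_le_card ?_))
    intro j hj
    obtain ⟨l, hl, rfl⟩ := mem_image.1 hj
    rw [hB0, mem_filter] at hl
    exact mem_inter.2 ⟨mem_image_of_mem _ (Tt_sub i (mem_sdiff.1 hl.1).1), hl.2⟩
  have h2 : B0.card + G0.card = nl D T s i := by
    rw [hB0, hG0]
    exact card_filter_add_card_filter_not _
  have h3 : m0 ≤ 2 * min G0.card m0 := by
    rcases le_total G0.card m0 with h | h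
    · rw [min_eq_left h]; omega
    · rw [min_eq_right h]; omega
  obtain ⟨G, hG, hGc⟩ := exists_subset_card_eq (min_le_left G0.card m0)
  have h4 : G ⊆ Tt D T s i \ Tt D T s (i + 1) := hG.trans (filter_subset _ _)
  refine ⟨G, h4, fun l hl => (mem_filter.1 (hG hl)).2, ?_, ?_, ?_, ?_⟩
  · rw [← card_pos]; omega
  · rw [hGc]; exact min_le_right _ _
  · rw [hGc]; exact h3
  · intro S' hS'
    rcases S'.eq_empty_or_nonempty with h | h
    · rw [h]; simp
    · have h5 := sv_card hD i S' (hS'.trans h4)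
      have h6 : S'.card ≤ m0 := (card_le_card hS').trans (by rw [hGc]; exact min_le_right _ _)
      have h7 : 1 ≤ (S'.image s).card := (h.image s).card_pos
      rcases le_total (D ^ i) m0 with h8 | h8
      · rw [min_eq_left h8, mul_comm]; exact h5
      · rw [min_eq_right h8]
        exact h6.trans (Nat.le_mul_of_pos_right _ h7)

end Pool.Agent.H80.RO
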