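import Pool.Agent.H80.RO.Cod

/-!
MP_ba3460_lc, linear exponent in the dense regime (/team-store/H80_RLD.md, (F4)-(F6)): removal of the
rows of high level, the ratio of the weights, the dominant level (helper80).
-/

set_option autoImplicit false
set_option linter.unusedSectionVars false

open Finset

namespace Pool.Agent.H80.RO

open Pool.Agent.H82.RD (zz lv ld af Tt Jt lv_iff Tt_zero Tt_sub Tt_succ Tt_end Lvl_mem_G
  Lvl_mem_Tt Lvl_mem_Jt Lvl_zz_succ Lvl_zz_zero Lvl_zz_mono Lvl_anti Lvl_card Lvl_image_ld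
  Lvl_ld_inj Lvl_ld_lt Jt_card sv_card)

variable {L g : ℕ} {D : ℕ} {T : Finset (Fin L)} {s : Fin L → Fin g}

/-! ### Removal of the levels `≥ E` -/

/-- Loads after the removal of the rows of level at least `E`. -/
theorem ld_rem (hD : 1 ≤ D) (E : ℕ) (l : Fin L) (j : Fin g) :
    ld (T \ Tt D T s E) s l j = min (ld T s l j) (zz D E) := by
  set T2 : Finset (Fin L) := T.filter (fun i => i < l) with hT2
  have h1 : ∀ i, i < l → ld T2 s i j = ld T s i j := by
    intro i hi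
    unfold ld
    congr 1
    ext a
    simp only [hT2, mem_filter]
    constructor
    · rintro ⟨⟨h1, -⟩, h2, h3⟩
      exact ⟨h1, h2, h3⟩
    · rintro ⟨h1, h2, h3⟩
      exact ⟨⟨h1, h2.trans hi⟩, h2, h3⟩
  have h2 : (T2.filter fun i => s i = j).card = ld T s l j := by
    unfold ld
    congr 1
    ext a
    simp only [hT2, mem_filter]
    tauto
  have h3 := Lvl_card T2 s j 0 (zz D E)
  rw [h2, Nat.sub_zero, min_comm] at h3
  rw [← h3]
  unfold ld
  congr 1
  ext a
  rw [mem_filter, mem_filter, mem_sdiff, Lvl_mem_Tt hD, hT2, mem_filter]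
  constructor
  · rintro ⟨⟨h4, h5⟩, h6, h7⟩
    refine ⟨⟨h4, h6⟩, h7, Nat.zero_le _, ?_⟩
    have h8 := h1 a h6
    rw [hT2] at h8
    unfold ld at h8 h5
    rw [h8]
    rw [h7] at h5
    exact not_le.1 fun h => h5 ⟨h4, h⟩
  · rintro ⟨⟨h4, h6⟩, h7, -, h5⟩
    refine ⟨⟨h4, ?_⟩, h6, h7⟩
    rintro ⟨-, h9⟩
    have h8 := h1 a h6
    rw [hT2] at h8
    unfold ld at h8 h9
    rw [h8] at h5
    rw [h7] at h9
    exact absurd h5 (not_lt.2 h9)

theorem zz_lt (hD : 1 ≤ D) {a b : ℕ} : zz D a ≤ zz D b ↔ a ≤ b := by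
  constructor
  · intro h
    by_contra hc
    have h1 : zz D (b + 1) ≤ zz D a := Lvl_zz_mono D (by omega)
    rw [Lvl_zz_succ] at h1
    have h2 := Nat.one_le_pow b D hD
    omega
  · exact fun h => Lvl_zz_mono D h

theorem lv_min (hD : 1 ≤ D) (n E : ℕ) : lv D (min n (zz D E)) = min (lv D n) E := by
  refine le_antisymm ?_ ?_
  · have h := (lv_iff hD (lv D (min n (zz D E))) (min n (zz D E))).1 le_rfl
    rw [le_min_iff] at h ⊢
    exact ⟨(lv_iff hD _ _).2 h.1, (zz_lt hD).1 h.2⟩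
  · rw [lv_iff hD, le_min_iff]
    constructor
    · exact (Lvl_zz_mono D (min_le_left _ _)).trans ((lv_iff hD _ _).1 le_rfl)
    · exact Lvl_zz_mono D (min_le_right _ _)

theorem lv_rem (hD : 1 ≤ D) (E : ℕ) (l : Fin L) (j : Fin g) :
    lv D (ld (T \ Tt D T s E) s l j) = min (lv D (ld T s l j)) E := by
  rw [ld_rem hD, lv_min hD]

theorem lv_lt_of_mem {E : ℕ} {l : Fin L} (hl : l ∈ T \ Tt D T s E) :
    lv D (ld T s l (s l)) < E := by
  rw [mem_sdiff] at hl
  by_contra hc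
  refine hl.2 ?_
  unfold Tt
  exact mem_filter.2 ⟨hl.1, not_lt.1 hc⟩

/-- The load of the server of a remaining row is unchanged. -/
theorem ld_rem_self (hD : 1 ≤ D) {E : ℕ} {l : Fin L} (hl : l ∈ T \ Tt D T s E) :
    ld (T \ Tt D T s E) s l (s l) = ld T s l (s l) := by
  rw [ld_rem hD, min_eq_left]
  rw [mem_sdiff, Lvl_mem_Tt hD] at hl
  exact (not_le.1 fun h => hl.2 ⟨hl.1, h⟩).le

theorem lv_rem_self (hD : 1 ≤ D) {E : ℕ} {l : Fin L} (hl : l ∈ T \ Tt D T s E) :
    lv D (ld (T \ Tt D T s E) s l (s l)) = lv D (ld T s l (s l)) := by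
  rw [ld_rem_self hD hl]

/-- The columns after the server are unchanged. -/
theorem af_rem (hD : 1 ≤ D) {E : ℕ} {l : Fin L} (hl : l ∈ T \ Tt D T s E) :
    af D (T \ Tt D T s E) s l (s l) = af D T s l (s l) := by
  have h1 := lv_lt_of_mem hl
  unfold af
  ext j
  rw [mem_filter, mem_filter, lv_rem_self hD hl, lv_rem hD]
  refine and_congr_right fun _ => ?_
  rcases le_total (lv D (ld T s l j)) E with h | h
  · rw [min_eq_left h]
  · rw [min_eq_right h]
    constructor
    · intro _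
      exact Or.inl (by omega)
    · intro _
      exact Or.inl h1

theorem Tt_rem (hD : 1 ≤ D) (E e : ℕ) :
    Tt D (T \ Tt D T s E) s e = Tt D T s e \ Tt D T s E := by
  ext l
  rw [mem_sdiff]
  constructor
  · intro h
    have h0 : l ∈ T \ Tt D T s E := Tt_sub e h
    have h1 := lv_rem_self hD h0
    unfold Tt at h h0 ⊢
    rw [mem_filter] at h
    rw [mem_sdiff] at h0
    refine ⟨mem_filter.2 ⟨h0.1, ?_⟩, h0.2⟩
    unfold Tt at h1
    rw [← h1]
    exact h.2
  · rintro ⟨h1, h2⟩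
    have h0 : l ∈ T \ Tt D T s E := mem_sdiff.2 ⟨Tt_sub e h1, h2⟩
    have h3 := lv_rem_self hD h0
    have h4 : e ≤ lv D (ld T s l (s l)) := by
      unfold Tt at h1
      exact (mem_filter.1 h1).2
    unfold Tt
    refine mem_filter.2 ⟨h0, ?_⟩
    unfold Tt at h3
    rw [h3]
    exact h4

/-- The levels after the removal: the levels `< E` are unchanged. -/
theorem lev_rem (hD : 1 ≤ D) {E e : ℕ} (he : e < E) :
    Tt D (T \ Tt D T s E) s e \ Tt D (T \ Tt D T s E) s (e + 1) =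
      Tt D T s e \ Tt D T s (e + 1) := by
  rw [Tt_rem hD, Tt_rem hD]
  have h1 : Tt D T s E ⊆ Tt D T s (e + 1) := Lvl_anti he
  ext l
  simp only [mem_sdiff]
  constructor
  · rintro ⟨⟨h2, h3⟩, h4⟩
    exact ⟨h2, fun h5 => h4 ⟨h5, h3⟩⟩
  · rintro ⟨h2, h3⟩
    exact ⟨⟨h2, fun h5 => h3 (h1 h5)⟩, fun h5 => h3 h5.1⟩

theorem Tt_rem_empty (hD : 1 ≤ D) {E e : ℕ} (he : E ≤ e) :
    Tt D (T \ Tt D T s E) s e = ∅ := by
  rw [Tt_rem hD, sdiff_eq_empty_iff_subset]
  exact Lvl_anti he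

/-! ### The ratio of the weights -/

/-- The product of `load + 1` over the rows served by `j`. -/
theorem prod_col (T : Finset (Fin L)) (s : Fin L → Fin g) (j : Fin g) :
    ∏ l ∈ T.filter (fun l => s l = j), (ld T s l j + 1) =
      ((T.filter fun l => s l = j).card).factorial := by
  rw [← prod_range_add_one_eq_factorial, ← Lvl_image_ld, prod_image]
  intro a ha b hb hab
  rw [mem_coe, mem_filter] at ha hb
  exact Lvl_ld_inj ha.1 hb.1 ha.2 hb.2 hab

theorem wt_col (T : Finset (Fin L)) (s : Fin L → Fin g) (j : Fin g) (hL : 1 ≤ L) :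
    (1 : ℝ) / 8 ^ L ≤
      ∏ l ∈ T.filter (fun l => s l = j), (((ld T s l (s l) : ℝ) + 1) / (2 * L)) := by
  set m := (T.filter fun l => s l = j).card with hm
  have hL0 : (0 : ℝ) < 2 * L := by
    have : (0 : ℝ) < L := by exact_mod_cast hL
    positivity
  have h1 : ∏ l ∈ T.filter (fun l => s l = j), (((ld T s l (s l) : ℝ) + 1) / (2 * L)) =
      (m.factorial : ℝ) / (2 * L) ^ m := by
    rw [prod_div_distrib, prod_const, ← hm]
    congr 1
    rw [← prod_col T s j]
    push_cast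
    refine prod_congr rfl fun l hl => ?_
    rw [(mem_filter.1 hl).2]
  rw [h1]
  have h2 : (2 * (L : ℝ)) ^ m / (m.factorial : ℝ) ≤ Real.exp (2 * L) :=
    Real.pow_div_factorial_le_exp (2 * (L : ℝ)) (by positivity) m
  have h3 : Real.exp (2 * L) ≤ 8 ^ L := by
    have h3 : Real.exp 2 ≤ 8 := by
      have h4 : Real.exp 2 = Real.exp 1 * Real.exp 1 := by rw [← Real.exp_add]; norm_num
      have h5 := Real.exp_one_lt_d9
      have h6 := Real.exp_pos 1
      rw [h4]
      nlinarith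
    calc Real.exp (2 * L) = Real.exp 2 ^ L := by rw [← Real.exp_nat_mul]; ring_nf
      _ ≤ 8 ^ L := pow_le_pow_left₀ (Real.exp_pos 2).le h3 L
  have h4 : (0 : ℝ) < m.factorial := by exact_mod_cast m.factorial_pos
  have h5 : (2 * (L : ℝ)) ^ m / (m.factorial : ℝ) ≤ 8 ^ L := h2.trans h3
  rw [div_le_iff₀ h4] at h5
  rw [div_le_div_iff₀ (by positivity) (by positivity), one_mul]
  exact h5.trans (le_of_eq (mul_comm _ _))

/-- **Ratio of the weights.** The rows of level at least `E` are served by the columns of `S`. -/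
theorem wt_ratio (hD : 1 ≤ D) (hL : 1 ≤ L) (E : ℕ) {S : Finset (Fin g)}
    (hS : ∀ l ∈ Tt D T s E, s l ∈ S) :
    (1 / 8 ^ L : ℝ) ^ S.card *
        ∏ l ∈ T \ Tt D T s E, (((ld (T \ Tt D T s E) s l (s l) : ℝ) + 1) / (2 * L)) ≤
      ∏ l ∈ T, (((ld T s l (s l) : ℝ) + 1) / (2 * L)) := by
  have hL0 : (0 : ℝ) < 2 * L := by
    have : (0 : ℝ) < L := by exact_mod_cast hL
    positivity
  set F : Fin L → ℝ := fun l => ((ld T s l (s l) : ℝ) + 1) / (2 * L) with hF
  have hF0 : ∀ l, 0 ≤ F l := fun l => by rw [hF]; positivity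
  have hF1 : ∀ l ∈ T, F l ≤ 1 := by
    intro l hl
    rw [hF]
    simp only
    rw [div_le_one hL0]
    have h1 : ld T s l (s l) < L := by
      refine (Lvl_ld_lt hl rfl).trans_le ?_
      refine (card_le_card (filter_subset _ _)).trans ?_
      have := card_le_univ T
      rwa [Fintype.card_fin] at this
    have h2 : (ld T s l (s l) : ℝ) + 1 ≤ L := by exact_mod_cast h1
    have h3 : (0 : ℝ) ≤ L := by positivity
    linarith
  have h1 : ∏ l ∈ T \ Tt D T s E, (((ld (T \ Tt D T s E) s l (s l) : ℝ) + 1) / (2 * L)) =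
      ∏ l ∈ T \ Tt D T s E, F l := by
    refine prod_congr rfl fun l hl => ?_
    rw [ld_rem_self hD hl]
  have h2 : ∏ l ∈ T, F l = (∏ l ∈ T \ Tt D T s E, F l) * ∏ l ∈ Tt D T s E, F l :=
    (prod_sdiff (Tt_sub E)).symm
  have h3 : (1 / 8 ^ L : ℝ) ^ S.card ≤ ∏ l ∈ Tt D T s E, F l := by
    have h4 : ∏ l ∈ Tt D T s E, F l = ∏ j ∈ S, ∏ l ∈ (Tt D T s E).filter (fun l => s l = j), F l :=
      (prod_fiberwise_of_maps_to hS _).symm
    rw [h4, ← prod_const]
    refine prod_le_prod (fun j _ => by positivity) fun j _ => ?_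
    refine (wt_col T s j hL).trans ?_
    have h5 : (Tt D T s E).filter (fun l => s l = j) ⊆ T.filter (fun l => s l = j) :=
      filter_subset_filter _ (Tt_sub E)
    rw [← prod_sdiff h5]
    refine mul_le_of_le_one_left (prod_nonneg fun l _ => hF0 l) ?_
    exact prod_le_one (fun l _ => hF0 l) fun l hl =>
      hF1 l (mem_filter.1 (mem_sdiff.1 hl).1).1
  rw [h1, h2, mul_comm]
  exact mul_le_mul_of_nonneg_left h3 (prod_nonneg fun l _ => hF0 l)

end Pool.Agent.H80.RO
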